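import Mathlib
import Pool.Agent.H.MP_fa2b2f_an.A

namespace Pool.Agent.Results.MP_fa2b2f_an.Symmetric

open MeasureTheory Set Pool.Agent.H.MP_fa2b2f_an
open scoped NNReal symmDiff

theorem result :
    ∃ (m : Measure ℝ) (Ω : Set ℝ) (l : ℝ≥0) (E : Set ℝ),
      (∀ B : Set ℝ, Bornology.IsBounded B → m B < ⊤) ∧ m.IsOpenPosMeasure ∧
      IsOpen Ω ∧ IsConnected Ω ∧ Bornology.IsBounded Ω ∧ m (frontier Ω) = 0 ∧ 0 < l ∧
      MeasurableSet E ∧ E ⊆ Ω ∧ energySym m Ω l E < ⊤ ∧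
      (∀ A : Set ℝ, MeasurableSet A → energySym m Ω l E ≤ energySym m Ω l A) ∧
      ∀ C : Set ℝ, IsClosed C → 0 < m ((E ∆ C) ∩ Ω) :=
  ⟨mu, Ioo (-1) 1, 1 / 4, Ioo 0 1, mu_bounded, mu_openPos, isOpen_Ioo,
    isConnected_Ioo (by norm_num), Metric.isBounded_Ioo _ _, frontier_null, by norm_num,
    measurableSet_Ioo, E_sub, fin_sym, fun A hA => min_sym A hA, no_closed⟩

end Pool.Agent.Results.MP_fa2b2f_an.Symmetric
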